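import Pool.Agent.H64.EP.Targets

/-!
MP_e01ba1_co, table ep_modules, module BES: Bessel's inequality for the conditional expectations
on one letter.
-/

set_option autoImplicit false

open Finset
open scoped Classical

namespace Pool.Agent.H64.EP

/-- sums over all words which split at one letter -/
theorem BES_split {L R : ℕ} (t : Fin L) (F : Fin R → ℝ)
    (H : ({j : Fin L // j ≠ t} → Fin R) → ℝ) :
    ∑ σ : Fin L → Fin R, F (σ t) * H (fun j => σ j) = (∑ ρ, F ρ) * ∑ τ, H τ := by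
  rw [Finset.sum_mul_sum, ← Fintype.sum_prod_type']
  refine Fintype.sum_equiv (Equiv.funSplitAt t (Fin R)) _ _ ?_
  intro σ
  simp [Equiv.funSplitAt_apply]

/-- sum of a function of one letter -/
theorem BES_one {L R : ℕ} (t : Fin L) (F : Fin R → ℝ) :
    (R : ℝ) * ∑ σ : Fin L → Fin R, F (σ t) = (Fintype.card (Fin L → Fin R) : ℝ) * ∑ ρ, F ρ := by
  have h1 := BES_split t F (fun _ => 1)
  have h2 := BES_split t (fun _ : Fin R => (1 : ℝ)) (fun _ => 1)
  simp only [mul_one, Finset.sum_const, Finset.card_univ, Fintype.card_fin, nsmul_eq_mul] at h1 h2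
  rw [h1, h2]
  ring

/-- two different letters -/
theorem BES_two {L R : ℕ} (t t' : Fin L) (h : t ≠ t') (F F' : Fin R → ℝ) (h0 : ∑ ρ, F ρ = 0) :
    ∑ σ : Fin L → Fin R, F (σ t) * F' (σ t') = 0 := by
  have h1 := BES_split t F (fun τ => F' (τ ⟨t', fun e => h e.symm⟩))
  rw [h0, zero_mul] at h1
  exact h1

theorem pf_BES : T_BES := by
  intro L R hL hR ψ
  have hR0 : (0 : ℝ) < R := by exact_mod_cast hR
  have hL0 : (0 : ℝ) < L := by exact_mod_cast hL
  have : Nonempty (Fin R) := ⟨⟨0, hR⟩⟩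
  have : Nonempty (Fin L) := ⟨⟨0, hL⟩⟩
  set N : ℝ := (Fintype.card (Fin L → Fin R) : ℝ) with hN
  have hN0 : 0 < N := by
    rw [hN]
    exact_mod_cast Fintype.card_pos
  set μ : ℝ := avg ψ with hμ
  set φ : (Fin L → Fin R) → ℝ := fun σ => ψ σ - μ with hφ
  have hφ0 : ∑ σ, φ σ = 0 := by
    simp only [hφ, Finset.sum_sub_distrib, Finset.sum_const, Finset.card_univ, nsmul_eq_mul]
    rw [hμ]
    unfold avg
    rw [← hN]
    field_simp
    ring
  set G : Fin L → Fin R → ℝ := fun t ρ => ∑ σ : Fin L → Fin R, if σ t = ρ then φ σ else 0 with hG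
  have hG0 : ∀ t, ∑ ρ, G t ρ = 0 := by
    intro t
    refine Eq.trans ?_ hφ0
    simp only [hG]
    rw [Finset.sum_comm]
    refine Finset.sum_congr rfl (fun σ _ => ?_)
    simp
  -- the conditional expectations
  have hg : ∀ a : Fin L × Fin R,
      avg (fun σ : Fin L → Fin R => if σ a.1 = a.2 then (R : ℝ) * ψ σ else 0) - μ =
        R / N * G a.1 a.2 := by
    intro a
    have h1 := BES_one (L := L) (R := R) a.1 (fun ρ => if ρ = a.2 then μ else 0)
    simp only [Finset.sum_ite_eq', Finset.mem_univ, if_true] at h1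
    rw [← hN] at h1
    have h2 : avg (fun σ : Fin L → Fin R => if σ a.1 = a.2 then (R : ℝ) * ψ σ else 0) =
        R / N * ∑ σ : Fin L → Fin R, (if σ a.1 = a.2 then ψ σ else 0) := by
      unfold avg
      rw [← hN, Finset.mul_sum, Finset.sum_div]
      refine Finset.sum_congr rfl (fun σ _ => ?_)
      split_ifs
      · field_simp
      · simp
    have h3 : G a.1 a.2 = ∑ σ : Fin L → Fin R, (if σ a.1 = a.2 then ψ σ else 0) -
        ∑ σ : Fin L → Fin R, (if σ a.1 = a.2 then μ else 0) := by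
      simp only [hG]
      rw [← Finset.sum_sub_distrib]
      refine Finset.sum_congr rfl (fun σ _ => ?_)
      split_ifs
      · rfl
      · simp
    rw [h2, h3, mul_sub]
    have h4 : R / N * ∑ σ : Fin L → Fin R, (if σ a.1 = a.2 then μ else 0) = μ := by
      rw [div_mul_eq_mul_div, h1]
      field_simp
    rw [h4]
  -- the quadratic form
  have hA : ∑ σ, φ σ * (∑ t, G t (σ t)) = ∑ t, ∑ ρ, G t ρ ^ 2 := by
    simp only [Finset.mul_sum]
    rw [Finset.sum_comm]
    refine Finset.sum_congr rfl (fun t _ => ?_)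
    have : ∀ ρ, G t ρ ^ 2 = ∑ σ : Fin L → Fin R, if σ t = ρ then φ σ * G t ρ else 0 := by
      intro ρ
      rw [sq]
      conv_lhs => rw [hG]
      rw [Finset.sum_mul]
      refine Finset.sum_congr rfl (fun σ _ => ?_)
      split_ifs
      · rfl
      · simp
    simp only [this]
    rw [Finset.sum_comm]
    refine Finset.sum_congr rfl (fun σ _ => ?_)
    simp
  have hB : R * ∑ σ : Fin L → Fin R, (∑ t, G t (σ t)) ^ 2 = N * ∑ t, ∑ ρ, G t ρ ^ 2 := by
    have h1 : ∑ σ : Fin L → Fin R, (∑ t, G t (σ t)) ^ 2 =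
        ∑ t, ∑ σ : Fin L → Fin R, G t (σ t) ^ 2 := by
      have : ∀ σ : Fin L → Fin R, (∑ t, G t (σ t)) ^ 2 = ∑ t, ∑ t', G t (σ t) * G t' (σ t') := by
        intro σ
        rw [sq, Finset.sum_mul_sum]
      simp only [this]
      rw [Finset.sum_comm]
      refine Finset.sum_congr rfl (fun t _ => ?_)
      rw [Finset.sum_comm]
      rw [Finset.sum_eq_single t]
      · refine Finset.sum_congr rfl (fun σ _ => ?_)
        ring
      · intro t' _ hne
        exact BES_two t t' (fun e => hne e.symm) (G t) (G t') (hG0 t)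
      · intro h
        exact absurd (Finset.mem_univ _) h
    rw [h1, Finset.mul_sum, Finset.mul_sum]
    refine Finset.sum_congr rfl (fun t _ => ?_)
    exact BES_one t (fun ρ => G t ρ ^ 2)
  have hC : R * (∑ t, ∑ ρ, G t ρ ^ 2) ≤ N * ∑ σ, φ σ ^ 2 := by
    have h0 : 0 ≤ ∑ σ, (φ σ - R / N * ∑ t, G t (σ t)) ^ 2 :=
      Finset.sum_nonneg (fun σ _ => sq_nonneg _)
    have h1 : ∑ σ, (φ σ - R / N * ∑ t, G t (σ t)) ^ 2 =
        ∑ σ, φ σ ^ 2 - 2 * (R / N) * (∑ σ, φ σ * (∑ t, G t (σ t))) +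
          (R / N) ^ 2 * ∑ σ : Fin L → Fin R, (∑ t, G t (σ t)) ^ 2 := by
      rw [Finset.mul_sum, Finset.mul_sum, ← Finset.sum_sub_distrib, ← Finset.sum_add_distrib]
      refine Finset.sum_congr rfl (fun σ _ => ?_)
      ring
    have h2 : (R / N) ^ 2 * ∑ σ : Fin L → Fin R, (∑ t, G t (σ t)) ^ 2 =
        R / N * ∑ t, ∑ ρ, G t ρ ^ 2 := by
      have : (R / N) ^ 2 * ∑ σ : Fin L → Fin R, (∑ t, G t (σ t)) ^ 2 =
          R / N ^ 2 * (R * ∑ σ : Fin L → Fin R, (∑ t, G t (σ t)) ^ 2) := by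
        ring
      rw [this, hB]
      field_simp
    rw [h1, hA, h2] at h0
    have h3 : 0 ≤ ∑ σ, φ σ ^ 2 - R / N * ∑ t, ∑ ρ, G t ρ ^ 2 := by linarith
    have h4 : 0 ≤ N * (∑ σ, φ σ ^ 2 - R / N * ∑ t, ∑ ρ, G t ρ ^ 2) := mul_nonneg hN0.le h3
    have h5 : N * (∑ σ, φ σ ^ 2 - R / N * ∑ t, ∑ ρ, G t ρ ^ 2) =
        N * ∑ σ, φ σ ^ 2 - R * ∑ t, ∑ ρ, G t ρ ^ 2 := by
      field_simp
    linarith
  -- conclusion
  have hD : avg (fun a : Fin L × Fin R =>
      (avg (fun σ : Fin L → Fin R => if σ a.1 = a.2 then (R : ℝ) * ψ σ else 0) - μ) ^ 2) =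
      (R * (∑ t, ∑ ρ, G t ρ ^ 2)) / (L * N ^ 2) := by
    have : ∀ a : Fin L × Fin R,
        (avg (fun σ : Fin L → Fin R => if σ a.1 = a.2 then (R : ℝ) * ψ σ else 0) - μ) ^ 2 =
          (R / N) ^ 2 * G a.1 a.2 ^ 2 := by
      intro a
      rw [hg a]
      ring
    simp only [this]
    unfold avg
    rw [← Finset.mul_sum, Fintype.sum_prod_type]
    simp only [Fintype.card_prod, Fintype.card_fin, Nat.cast_mul]
    field_simp
  rw [hD]
  have hE : avg (fun σ => (ψ σ - μ) ^ 2) / L = (N * ∑ σ, φ σ ^ 2) / (L * N ^ 2) := by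
    unfold avg
    rw [← hN]
    simp only [hφ]
    field_simp
  rw [hE]
  exact div_le_div_of_nonneg_right hC (by positivity)

end Pool.Agent.H64.EP
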