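import Pool.Agent.H70.EP.Targets

/-!
Module CN3: the number of instances of bounded size.
-/

set_option autoImplicit false

namespace Pool.Agent.H58.EP.CN3

open Pool.Agent.H6.NB Pool.Agent.H70.OQ Pool.Agent.H70.EH Pool.Agent.H70.EI Pool.Agent.H70.EP

theorem strings (m : ℕ) : ∃ Ws : Finset (List Bool), Ws.card + 1 ≤ 2 ^ (m + 1) ∧
    ∀ w : List Bool, w.length ≤ m → w ∈ Ws := by
  classical
  induction m with
  | zero =>
    refine ⟨{[]}, by simp, fun w hw => ?_⟩
    rw [Finset.mem_singleton]
    exact List.eq_nil_of_length_eq_zero (by omega)
  | succ m ih =>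
    obtain ⟨Ws, h1, h2⟩ := ih
    refine ⟨insert [] (Ws.image (List.cons false) ∪ Ws.image (List.cons true)), ?_, ?_⟩
    · have h3 := Finset.card_insert_le [] (Ws.image (List.cons false) ∪ Ws.image (List.cons true))
      have h4 := Finset.card_union_le (Ws.image (List.cons false)) (Ws.image (List.cons true))
      have h5 : (Ws.image (List.cons false)).card ≤ Ws.card := Finset.card_image_le
      have h6 : (Ws.image (List.cons true)).card ≤ Ws.card := Finset.card_image_le
      have h7 : 2 ^ (m + 1 + 1) = 2 * 2 ^ (m + 1) := by ring
      omega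
    · intro w hw
      rcases w with _ | ⟨b, w⟩
      · exact Finset.mem_insert_self _ _
      · have hw' : w ∈ Ws := h2 w (by simpa using hw)
        refine Finset.mem_insert_of_mem (Finset.mem_union.2 ?_)
        cases b with
        | false => exact Or.inl (Finset.mem_image_of_mem _ hw')
        | true => exact Or.inr (Finset.mem_image_of_mem _ hw')

theorem enc_inj : ∀ (i j : ℕ) (x y : List Bool),
    List.replicate i true ++ false :: x = List.replicate j true ++ false :: y → i = j ∧ x = y := by
  intro i
  induction i with
  | zero =>
    intro j x y h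
    cases j with
    | zero => simpa using h
    | succ j => simp [List.replicate_succ] at h
  | succ i ih =>
    intro j x y h
    cases j with
    | zero => simp [List.replicate_succ] at h
    | succ j =>
      simp only [List.replicate_succ, List.cons_append, List.cons.injEq, true_and] at h
      obtain ⟨h1, h2⟩ := ih j x y h
      exact ⟨by omega, h2⟩

theorem cn3 : T_CN3 := by
  classical
  intro V E r hr
  obtain ⟨Ws, h1, h2⟩ := strings (r - 19)
  have h3 : (E.filter fun p => sk V p ≤ r).card ≤ Ws.card := by
    refine Finset.card_le_card_of_injOn (fun p => List.replicate p.1 true ++ false :: p.2) ?_ ?_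
    · intro p hp
      have hp2 := (Finset.mem_filter.1 (Finset.mem_coe.1 hp)).2
      apply h2
      unfold sk scale at hp2
      rw [List.length_append, List.length_replicate, List.length_cons]
      omega
    · intro p _ q _ hpq
      obtain ⟨h4, h5⟩ := enc_inj _ _ _ _ hpq
      exact Prod.ext h4 h5
  have h4 : 2 ^ r = 2 ^ 18 * 2 ^ (r - 19 + 1) := by
    rw [← pow_add, show 18 + (r - 19 + 1) = r by omega]
  rw [h4]
  have : 2 ^ 18 = 262144 := by norm_num
  omega

end Pool.Agent.H58.EP.CN3
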