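import Pool.Agent.H70.EP.Targets

/-!
Module DC3: the conditions depend on finitely many strings.
-/

set_option autoImplicit false

namespace Pool.Agent.H58.EP.DC3

open Pool.Agent.H6.NB Pool.Agent.H70.OQ Pool.Agent.H70.EH Pool.Agent.H70.EI Pool.Agent.H70.EP

/-- Alternating quantifiers: the predicate matters only on lists of admissible strings. -/
theorem alt_congr (R : List Bool → Prop) : ∀ (k : ℕ) (b : Bool) (P Q : List (List Bool) → Prop),
    (∀ ws, ws.length = k → (∀ w ∈ ws, R w) → (P ws ↔ Q ws)) → (Alt R b k P ↔ Alt R b k Q) := by
  intro k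
  induction k with
  | zero =>
    intro b P Q h
    have := h [] rfl (by simp)
    cases b <;> simpa [Alt] using this
  | succ k ih =>
    intro b P Q h
    have h' : ∀ w, R w → ∀ b', (Alt R b' k (fun ws => P (w :: ws)) ↔
        Alt R b' k fun ws => Q (w :: ws)) := by
      intro w hw b'
      refine ih b' _ _ fun ws hl hws => h (w :: ws) (by simp [hl]) ?_
      intro v hv
      rcases List.mem_cons.1 hv with rfl | hv
      · exact hw
      · exact hws v hv
    cases b with
    | true =>
      simp only [Alt]
      exact exists_congr fun w => and_congr_right fun hw => h' w hw false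
    | false =>
      simp only [Alt]
      exact forall_congr' fun w => forall_congr' fun hw => h' w hw true

theorem dc3 (h1 : Pool.Agent.H6.NB.T_EVC) (h2 : Pool.Agent.H6.NB.T_COD) : T_DC3 := by
  intro V prog hS
  constructor
  · intro p
    refine ⟨(V p.1).time p.2.length + (2 * (hm V p).length +
        2 * (2 * (hm V p).length + qs (hm V p)) + 4), ?_⟩
    intro O O' h
    have hlang : p.2 ∈ (V p.1).lang O ↔ p.2 ∈ (V p.1).lang O' := by
      refine alt_congr _ _ _ _ _ fun ws hl hws => ?_
      rw [h1 ((V p.1).tree p.2 ws) ((V p.1).time p.2.length) O O' ((V p.1).short p.2 ws hl hws)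
        fun w hw => h w (by omega)]
    have hcpx : (fun u : Fin (2 * (hm V p).length) → Bool => cpx O (hm V p) (List.ofFn u)) =
        fun u => cpx O' (hm V p) (List.ofFn u) := by
      funext u v
      unfold cpx
      apply h
      unfold pos
      rw [h2.2, List.length_append, List.length_ofFn, List.length_ofFn]
      have hb : v.1.toNat ≤ 1 := Bool.toNat_le _
      omega
    have hdec : @decide (p.2 ∈ (V p.1).lang O) (Classical.propDecidable _) =
        @decide (p.2 ∈ (V p.1).lang O') (Classical.propDecidable _) := by
      classical
      by_cases hx : p.2 ∈ (V p.1).lang O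
      · exact (decide_eq_true hx).trans (decide_eq_true (hlang.1 hx)).symm
      · exact (decide_eq_false hx).trans (decide_eq_false fun hx' => hx (hlang.2 hx')).symm
    unfold fine
    rw [hcpx, hdec]
  · intro s
    refine ⟨s.length + 1, fun O O' h => ?_⟩
    have e1 : O (false :: s) = O' (false :: s) := h _ (by simp)
    have e2 : acc prog s O ↔ acc prog s O' := by
      unfold acc
      refine exists_congr fun w => and_congr_right fun hw => ?_
      obtain ⟨m, hm1, hm2⟩ := (hS s w hw).2
      have hm3 : m ≤ s.length := by nlinarith
      rw [h1 (prog s w) m O O' hm2 fun w' hw' => h w' (by omega)]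
    rw [e1, e2]

end Pool.Agent.H58.EP.DC3
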