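import Pool.Agent.H58.EP.BES

/-!
MP_e01ba1_co, table ep_modules, module K1: random transversal containing a given label.
-/

set_option autoImplicit false

open Finset
open scoped Classical

namespace Pool.Agent.H64.EP

/-- exponential of a nonpositive number -/
theorem K1_neg (x : ℝ) (hx : 0 ≤ x) : Real.exp (-x) ≤ 1 - x + x ^ 2 / 2 := by
  have hd : ∀ y : ℝ, HasDerivAt (fun y : ℝ => 1 - y + y ^ 2 / 2 - Real.exp (-y))
      (-1 + y + Real.exp (-y)) y := by
    intro y
    have h1 : HasDerivAt (fun y : ℝ => Real.exp (-y)) (Real.exp (-y) * (-1)) y :=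
      (hasDerivAt_neg y).exp
    have h2 : HasDerivAt (fun y : ℝ => 1 - y + y ^ 2 / 2)
        (0 - 1 + (2 : ℕ) * y ^ (2 - 1) / 2) y :=
      ((hasDerivAt_const y (1 : ℝ)).sub (hasDerivAt_id y)).add ((hasDerivAt_pow 2 y).div_const 2)
    have h3 := h2.sub h1
    refine h3.congr_deriv ?_
    push_cast
    ring
  have hm : MonotoneOn (fun y : ℝ => 1 - y + y ^ 2 / 2 - Real.exp (-y)) (Set.Ici 0) := by
    refine monotoneOn_of_deriv_nonneg (convex_Ici 0) ?_ ?_ ?_
    · exact fun y _ => (hd y).continuousAt.continuousWithinAt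
    · exact fun y _ => (hd y).differentiableAt.differentiableWithinAt
    · intro y _
      rw [(hd y).deriv]
      have := Real.add_one_le_exp (-y)
      linarith
  have h := hm (Set.mem_Ici.2 le_rfl) (Set.mem_Ici.2 hx) hx
  simp only [neg_zero, Real.exp_zero] at h
  linarith

/-- exponential of a nonnegative number -/
theorem K1_pos (x : ℝ) (hx : 0 ≤ x) : Real.exp x ≤ 1 + x + x ^ 2 / 2 * Real.exp x := by
  have hd : ∀ y : ℝ, HasDerivAt (fun y : ℝ => Real.exp (-y) * (1 + y) + y ^ 2 / 2)
      (y * (1 - Real.exp (-y))) y := by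
    intro y
    have h1 : HasDerivAt (fun y : ℝ => Real.exp (-y)) (Real.exp (-y) * (-1)) y :=
      (hasDerivAt_neg y).exp
    have h2 : HasDerivAt (fun y : ℝ => 1 + y) (0 + 1) y :=
      (hasDerivAt_const y (1 : ℝ)).add (hasDerivAt_id y)
    have h3 := (h1.mul h2).add ((hasDerivAt_pow 2 y).div_const 2)
    refine h3.congr_deriv ?_
    push_cast
    ring
  have hm : MonotoneOn (fun y : ℝ => Real.exp (-y) * (1 + y) + y ^ 2 / 2) (Set.Ici 0) := by
    refine monotoneOn_of_deriv_nonneg (convex_Ici 0) ?_ ?_ ?_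
    · exact fun y _ => (hd y).continuousAt.continuousWithinAt
    · exact fun y _ => (hd y).differentiableAt.differentiableWithinAt
    · intro y hy
      rw [interior_Ici, Set.mem_Ioi] at hy
      rw [(hd y).deriv]
      have : Real.exp (-y) ≤ 1 := Real.exp_le_one_iff.2 (by linarith)
      exact mul_nonneg hy.le (by linarith)
  have h := hm (Set.mem_Ici.2 le_rfl) (Set.mem_Ici.2 hx) hx
  simp only [neg_zero, Real.exp_zero] at h
  have h5 : 1 * Real.exp x ≤ (Real.exp (-x) * (1 + x) + x ^ 2 / 2) * Real.exp x :=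
    mul_le_mul_of_nonneg_right (by linarith) (Real.exp_pos _).le
  have h6 : Real.exp (-x) * Real.exp x = 1 := by
    rw [← Real.exp_add]; simp
  have h7 : (Real.exp (-x) * (1 + x) + x ^ 2 / 2) * Real.exp x =
      (Real.exp (-x) * Real.exp x) * (1 + x) + x ^ 2 / 2 * Real.exp x := by ring
  rw [h7, h6] at h5
  linarith

/-- upper bound of second order -/
theorem K1_up (x M : ℝ) (h : |x| ≤ M) :
    Real.exp x ≤ 1 + x + x ^ 2 / 2 * Real.exp M := by
  rcases le_total 0 x with hx | hx
  · have h1 := K1_pos x hx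
    have h2 : Real.exp x ≤ Real.exp M := Real.exp_le_exp.2 ((le_abs_self x).trans h)
    have h3 : x ^ 2 / 2 * Real.exp x ≤ x ^ 2 / 2 * Real.exp M :=
      mul_le_mul_of_nonneg_left h2 (by positivity)
    linarith
  · have h1 := K1_neg (-x) (by linarith)
    rw [neg_neg] at h1
    have h2 : 1 ≤ Real.exp M := Real.one_le_exp ((abs_nonneg x).trans h)
    have h3 : x ^ 2 / 2 * 1 ≤ x ^ 2 / 2 * Real.exp M :=
      mul_le_mul_of_nonneg_left h2 (by positivity)
    nlinarith

/-- lower bound of second order -/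
theorem K1_low (x : ℝ) (h : |x| ≤ 1) : 1 + x + x ^ 2 / 4 ≤ Real.exp x := by
  have h1 := Real.exp_bound h (n := 3) (by norm_num)
  simp only [Finset.sum_range_succ, Finset.sum_range_zero, Nat.factorial] at h1
  norm_num at h1
  have h2 := (abs_le.1 h1).1
  have h3 : |x| ^ 3 ≤ x ^ 2 := by
    have : |x| ^ 3 = x ^ 2 * |x| := by
      rw [pow_succ, sq_abs]
    rw [this]
    calc x ^ 2 * |x| ≤ x ^ 2 * 1 := mul_le_mul_of_nonneg_left h (sq_nonneg x)
      _ = x ^ 2 := mul_one _
  nlinarith [sq_nonneg x]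

theorem K1_avg_add {α : Type} [Fintype α] (f g : α → ℝ) :
    avg (fun a => f a + g a) = avg f + avg g := by
  unfold avg
  rw [Finset.sum_add_distrib, add_div]

theorem K1_avg_mul {α : Type} [Fintype α] (c : ℝ) (f : α → ℝ) :
    avg (fun a => c * f a) = c * avg f := by
  unfold avg
  rw [← Finset.mul_sum, mul_div_assoc]

theorem K1_avg_const {α : Type} [Fintype α] [Nonempty α] (c : ℝ) :
    avg (fun _ : α => c) = c := by
  unfold avg
  rw [Finset.sum_const, Finset.card_univ, nsmul_eq_mul]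
  have : (0 : ℝ) < Fintype.card α := by exact_mod_cast Fintype.card_pos
  field_simp

theorem K1_avg_le {α : Type} [Fintype α] (f g : α → ℝ) (h : ∀ a, f a ≤ g a) :
    avg f ≤ avg g := by
  unfold avg
  exact div_le_div_of_nonneg_right (Finset.sum_le_sum (fun a _ => h a)) (Nat.cast_nonneg _)

theorem pf_K1 (hB : T_BES) : T_K1 := by
  intro L R q hR hq hL ψ hψ
  have h3q : 1 ≤ 3 ^ q := Nat.one_le_pow _ _ (by norm_num)
  have hL1 : 1 ≤ L := by
    have : 1 ≤ 2 * q * 3 ^ q := by
      have : 1 * 1 ≤ (2 * q) * 3 ^ q := Nat.mul_le_mul (by omega) h3q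
      simpa using this
    omega
  have hR0 : (0 : ℝ) < R := by exact_mod_cast hR
  have hL0 : (0 : ℝ) < L := by exact_mod_cast hL1
  have hq0 : (0 : ℝ) < q := by exact_mod_cast hq
  have : Nonempty (Fin R) := ⟨⟨0, hR⟩⟩
  have : Nonempty (Fin L) := ⟨⟨0, hL1⟩⟩
  have hbes := hB L R hL1 hR ψ
  set μ : ℝ := avg ψ with hμ
  set g : Fin L × Fin R → ℝ := fun a =>
    avg (fun σ : Fin L → Fin R => if σ a.1 = a.2 then (R : ℝ) * ψ σ else 0) with hg
  set V : ℝ := avg (fun σ => (ψ σ - μ) ^ 2) with hV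
  have hV0 : 0 ≤ V := by
    rw [hV]
    have := K1_avg_le (fun _ : Fin L → Fin R => (0 : ℝ)) (fun σ => (ψ σ - μ) ^ 2)
      (fun σ => sq_nonneg _)
    rwa [K1_avg_const] at this
  -- the indicator has average one
  have hone : ∀ a : Fin L × Fin R,
      avg (fun σ : Fin L → Fin R => if σ a.1 = a.2 then (R : ℝ) else 0) = 1 := by
    intro a
    have h1 := BES_one (L := L) (R := R) a.1 (fun ρ => if ρ = a.2 then (1 : ℝ) else 0)
    simp only [Finset.sum_ite_eq', Finset.mem_univ, if_true, mul_one] at h1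
    have hN0 : (0 : ℝ) < (Fintype.card (Fin L → Fin R) : ℝ) := by
      exact_mod_cast Fintype.card_pos
    unfold avg
    rw [div_eq_iff hN0.ne', one_mul, ← h1, Finset.mul_sum]
    refine Finset.sum_congr rfl (fun σ _ => ?_)
    by_cases h : σ a.1 = a.2 <;> simp [h]
  have hμ1 : -1 ≤ μ := by
    have := K1_avg_le (fun _ : Fin L → Fin R => (-1 : ℝ)) ψ (fun σ => (hψ σ).1)
    rwa [K1_avg_const] at this
  have hμ2 : μ ≤ 0 := by
    have := K1_avg_le ψ (fun _ : Fin L → Fin R => (0 : ℝ)) (fun σ => (hψ σ).2)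
    rwa [K1_avg_const] at this
  have hg1 : ∀ a, -1 ≤ g a := by
    intro a
    have h1 := K1_avg_le
      (fun σ : Fin L → Fin R => (-1) * (if σ a.1 = a.2 then (R : ℝ) else 0))
      (fun σ : Fin L → Fin R => if σ a.1 = a.2 then (R : ℝ) * ψ σ else 0) (by
        intro σ
        split_ifs
        · have := mul_le_mul_of_nonneg_left (hψ σ).1 hR0.le
          linarith
        · simp)
    rw [K1_avg_mul, hone a] at h1
    linarith
  have hg2 : ∀ a, g a ≤ 0 := by
    intro a
    have h1 := K1_avg_le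
      (fun σ : Fin L → Fin R => if σ a.1 = a.2 then (R : ℝ) * ψ σ else 0)
      (fun _ : Fin L → Fin R => (0 : ℝ)) (by
        intro σ
        split_ifs
        · exact mul_nonpos_of_nonneg_of_nonpos hR0.le (hψ σ).2
        · exact le_rfl)
    rwa [K1_avg_const] at h1
  have hgavg : avg g = μ := by
    have h1 : ∑ a, g a = L * (R * μ) := by
      rw [Fintype.sum_prod_type]
      have h2 : ∀ t : Fin L, ∑ ρ, g (t, ρ) = R * μ := by
        intro t
        simp only [hg]
        unfold avg
        rw [← Finset.sum_div, Finset.sum_comm]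
        have h3 : ∀ σ : Fin L → Fin R,
            ∑ ρ : Fin R, (if σ t = ρ then (R : ℝ) * ψ σ else 0) = R * ψ σ := by
          intro σ
          simp
        simp only [h3]
        rw [← Finset.mul_sum, hμ]
        unfold avg
        rw [mul_div_assoc]
      simp only [h2]
      simp
    unfold avg
    rw [h1]
    simp only [Fintype.card_prod, Fintype.card_fin, Nat.cast_mul]
    field_simp
  -- upper bound
  have hup : avg (fun a => Real.exp (q * g a)) ≤ Real.exp (q * μ) * (1 + q * (V / 4)) := by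
    have h1 : ∀ a, Real.exp (q * g a) ≤
        Real.exp (q * μ) * (1 + (q * g a + (-(q * μ))) +
          (q ^ 2 / 2 * Real.exp q) * (g a - μ) ^ 2) := by
      intro a
      have h2 : Real.exp (q * g a) = Real.exp (q * μ) * Real.exp (q * (g a - μ)) := by
        rw [← Real.exp_add]; congr 1; ring
      rw [h2]
      refine mul_le_mul_of_nonneg_left ?_ (Real.exp_pos _).le
      have h3 : |q * (g a - μ)| ≤ q := by
        rw [abs_mul, abs_of_pos hq0]
        have : |g a - μ| ≤ 1 := by
          rw [abs_le]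
          constructor
          · linarith [hg1 a]
          · linarith [hg2 a]
        calc (q : ℝ) * |g a - μ| ≤ q * 1 := mul_le_mul_of_nonneg_left this hq0.le
          _ = q := mul_one _
      have h4 := K1_up (q * (g a - μ)) q h3
      have h5 : (q * (g a - μ)) ^ 2 / 2 * Real.exp q =
          (q ^ 2 / 2 * Real.exp q) * (g a - μ) ^ 2 := by ring
      rw [h5] at h4
      linarith
    have h6 := K1_avg_le _ _ h1
    rw [K1_avg_mul, K1_avg_add, K1_avg_add, K1_avg_add, K1_avg_mul, K1_avg_mul, K1_avg_const,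
      K1_avg_const, hgavg] at h6
    refine h6.trans (mul_le_mul_of_nonneg_left ?_ (Real.exp_pos _).le)
    have h7 : Real.exp q ≤ 3 ^ q := by
      have : Real.exp q = Real.exp 1 ^ q := by
        rw [← Real.exp_nat_mul, mul_one]
      rw [this]
      refine pow_le_pow_left₀ (Real.exp_pos _).le ?_ q
      linarith [Real.exp_one_lt_d9]
    have h8 : (2 * q * 3 ^ q : ℝ) ≤ L := by exact_mod_cast hL
    have h9 : (q ^ 2 / 2 * Real.exp q) *
        avg (fun a => (g a - μ) ^ 2) ≤ (q ^ 2 / 2 * Real.exp q) * (V / L) :=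
      mul_le_mul_of_nonneg_left hbes (by positivity)
    have h10 : (q ^ 2 / 2 * Real.exp q) * (V / L) ≤ q * (V / 4) := by
      rw [← mul_div_assoc, div_le_iff₀ hL0]
      have h11 : (q : ℝ) * (V / 4) * (2 * q * 3 ^ q) ≤ q * (V / 4) * L :=
        mul_le_mul_of_nonneg_left h8 (by positivity)
      refine le_trans ?_ h11
      have h12 : (q : ℝ) * (V / 4) * (2 * q * 3 ^ q) = (q ^ 2 / 2 * 3 ^ q) * V := by ring
      rw [h12]
      refine mul_le_mul_of_nonneg_right ?_ hV0
      exact mul_le_mul_of_nonneg_left h7 (by positivity)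
    linarith
  -- lower bound
  have hlow : Real.exp μ * (1 + V / 4) ≤ avg (fun σ => Real.exp (ψ σ)) := by
    have h1 : ∀ σ, Real.exp μ * (1 + (ψ σ + (-μ)) + (1 / 4) * (ψ σ - μ) ^ 2) ≤
        Real.exp (ψ σ) := by
      intro σ
      have h2 : Real.exp (ψ σ) = Real.exp μ * Real.exp (ψ σ - μ) := by
        rw [← Real.exp_add]; congr 1; ring
      rw [h2]
      refine mul_le_mul_of_nonneg_left ?_ (Real.exp_pos _).le
      have h3 : |ψ σ - μ| ≤ 1 := by
        rw [abs_le]
        constructor
        · linarith [(hψ σ).1]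
        · linarith [(hψ σ).2]
      have h4 := K1_low _ h3
      linarith
    have h6 := K1_avg_le _ _ h1
    rw [K1_avg_mul, K1_avg_add, K1_avg_add, K1_avg_add, K1_avg_mul, K1_avg_const,
      K1_avg_const] at h6
    rw [← hμ, ← hV] at h6
    have h7 : (1 : ℝ) + (μ + -μ) + 1 / 4 * V = 1 + V / 4 := by ring
    rwa [h7] at h6
  have h20 : (Real.exp μ * (1 + V / 4)) ^ q ≤ (avg (fun σ => Real.exp (ψ σ))) ^ q :=
    pow_le_pow_left₀ (by positivity) hlow q
  refine hup.trans (le_trans ?_ h20)
  rw [mul_pow, ← Real.exp_nat_mul]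
  refine mul_le_mul_of_nonneg_left ?_ (Real.exp_pos _).le
  exact one_add_mul_le_pow (by linarith) q

end Pool.Agent.H64.EP
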