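import Pool.Agent.H64.EP.Targets

/-!
MP_e01ba1_co, table ep_modules, module K2: random label contained in a given transversal.
-/

set_option autoImplicit false

open Finset
open scoped Classical

namespace Pool.Agent.H64.EP

theorem pf_K2 : T_K2 := by
  intro L R hL hR Ψ
  have hR0 : (0 : ℝ) < R := by exact_mod_cast hR
  have hL0 : (0 : ℝ) < L := by exact_mod_cast hL
  set y : Fin L → ℝ := fun t => (∑ ρ, Real.exp (Ψ (t, ρ))) / R with hy
  have hy0 : ∀ t, 0 ≤ y t := by
    intro t
    exact div_nonneg (Finset.sum_nonneg (fun ρ _ => (Real.exp_pos _).le)) hR0.le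
  have h1 : avg (fun σ : Fin L → Fin R => Real.exp (∑ t, Ψ (t, σ t))) = ∏ t, y t := by
    unfold avg
    have : ∑ σ : Fin L → Fin R, Real.exp (∑ t, Ψ (t, σ t)) = ∏ t, ∑ ρ, Real.exp (Ψ (t, ρ)) := by
      rw [Finset.prod_univ_sum, Fintype.piFinset_univ]
      refine Finset.sum_congr rfl (fun σ _ => ?_)
      rw [Real.exp_sum]
    rw [this]
    simp only [hy]
    rw [Finset.prod_div_distrib]
    simp
  have h2 : avg (fun a : Fin L × Fin R => Real.exp (Ψ a)) = ∑ t, (1 / (L : ℝ)) * y t := by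
    unfold avg
    rw [Fintype.sum_prod_type, ← Finset.mul_sum]
    simp only [hy]
    rw [← Finset.sum_div]
    simp only [Fintype.card_prod, Fintype.card_fin, Nat.cast_mul]
    field_simp
  have h4 : ∏ t, y t ^ (1 / (L : ℝ)) ≤ ∑ t, (1 / (L : ℝ)) * y t := by
    refine Real.geom_mean_le_arith_mean_weighted Finset.univ (fun _ => 1 / (L : ℝ)) y ?_ ?_ ?_
    · intro i _
      positivity
    · simp
      field_simp
    · intro i _
      exact hy0 i
  rw [h1, h2]
  have h5 : ∏ t, y t = (∏ t, y t ^ (1 / (L : ℝ))) ^ L := by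
    rw [← Finset.prod_pow]
    refine Finset.prod_congr rfl (fun t _ => ?_)
    rw [← Real.rpow_natCast, ← Real.rpow_mul (hy0 t)]
    rw [one_div, inv_mul_cancel₀ hL0.ne', Real.rpow_one]
  rw [h5]
  exact pow_le_pow_left₀ (Finset.prod_nonneg (fun t _ => Real.rpow_nonneg (hy0 t) _)) h4 L

end Pool.Agent.H64.EP
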